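import Pool.Agent.Lib.MP_2c6f70_nt.RU.X_Main
import Pool.Agent.Lib.MP_2c6f70_nt.TwentyFour

/-!
Squares in arithmetic progressions: the exponent `1/2` for all moduli with `log log q ≤ N ^ (ε/8)`.

`Q(N;q,a)` is the number of squares among the first `N` terms of the progression `q n + a`.  Rudin's conjecture is `Q(N;q,a) = O(sqrt N)`; the best known bound
for all `q` is `N ^ (3/5 + o(1))` (Bombieri and Zannier).  We prove `Q(N;q,a) ≤ N ^ (1/2 + ε)` for all `q ≤ exp (exp (N ^ (ε/8)))`, `N ≥ N₀(ε)`.

Sketch.  One passes to a coprime progression for which the set `S` of roots is small in all residue classes.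
(1) Signs: every prime power `p^e` exactly dividing `q` divides `x - y` or `x + y` for `x, y ∈ S`; the sign vectors have small correlations of all orders up to `2 k`, `k ≈ 2 log log q / log N` (Padé approximants), and so
`∑ (log p^e)^2 ≤ (4 + o(1)) log q log log q`: `q` has many prime factors `p ≤ (log q)^4`.
(2) Write `x - y = a A`, `x + y = b B`, where `A`, `B` are the products of the `p^e` with equal and different signs; `a b = ± (n_x - n_y)` up to a divisor of `8`.  The matrix of the
Jacobi symbols `(b_{xy} | p_1 ... p_10)` for prime divisors `p_i ≤ sqrt N` of `q` has rank one on the sign classes, and its fourth moment shows that `b_{xy}` takes a common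
value for `N^(2 - o(1))`-many pairs.
(3) With a common neighbourhood and Bessel inequalities: on a subset `V` of size `N^(1/2 + ε - o(1))` almost all index differences `d = |n_x - n_y|` have a prescribed Legendre symbol `(d | p) = ω_p` for
almost all `p ∣ q` in the weighted sense, and these `p` are `1` modulo `4`.
(4) Stars `n, n + u h_1, n + u h_2, n + u h_3` in `V` with primes `u ≈ N^(1/2)`: a given shape `(h_1, h_2, h_3)` occurs only `N^o(1)` times (rational points of almost equal height on an elliptic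
curve); double counting gives more than `N^(3/4 + 4 ε)` pairs of primes `u, u' ≤ N^(1/2 + ε)` with `(u u' | p) = 1` for almost all `p` of a set `P` of prime divisors of `q`.
(5) A moment inequality (products of many such pairs) and a large sieve for the symbols `(h | p_1 ... p_j)` of products of primes of `P` (Poisson summation and recursion): there are only `N^(3/4 + 3 ε/2)` such pairs, with a loss of `(log log q)^2`.
-/

set_option autoImplicit false

namespace Pool.Agent.Results.MP_2c6f70_nt.DoubleExp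

open Necdea073 Pool.Agent.Lib.MP_2c6f70_nt

/-- (1) For all `ε > 0` there is `N₀` such that for all `N ≥ N₀` and all `q, a ≥ 1` (coprime or not) with `log log q ≤ N ^ (ε/8)`: among the first `N` terms of the progression
`q n + a` there are at most `N ^ (1/2 + ε)` squares.
(2) In particular `Q(N;q,a) ≤ N ^ ε * Q(N;24,1)` for all non-trivial `(q, a)` with `log log q ≤ N ^ (ε/8)`, `N ≥ N₀`. -/
theorem result :
    (∀ ε : ℝ, 0 < ε → ∃ N₀ : ℕ, ∀ N ≥ N₀, ∀ q a : ℕ, 1 ≤ q → 1 ≤ a →
      Real.log (Real.log q) ≤ (N : ℝ) ^ (ε / 8) → (Q N q a : ℝ) ≤ (N : ℝ) ^ (1 / 2 + ε)) ∧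
    (∀ ε : ℝ, 0 < ε → ∃ N₀ : ℕ, ∀ N ≥ N₀, ∀ q a : ℕ, IsNontrivial q a →
      Real.log (Real.log q) ≤ (N : ℝ) ^ (ε / 8) → (Q N q a : ℝ) ≤ (N : ℝ) ^ ε * (Q N 24 1 : ℝ)) := by
  refine ⟨RU.rudin_de, ?_⟩
  intro ε hε
  obtain ⟨N₁, h1⟩ := RU.rudin_de ε hε
  refine ⟨max N₁ 1000, ?_⟩
  intro N hN q a hqa hq
  have hN1 : N₁ ≤ N := le_trans (le_max_left _ _) hN
  have hN2 : 1000 ≤ N := le_trans (le_max_right _ _) hN
  have hN0 : (0 : ℝ) < N := by
    have : 0 < N := by omega
    exact_mod_cast this
  have h2 : Real.sqrt N ≤ (Q N 24 1 : ℝ) := by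
    have := Q24_ge N hN2
    have h3 := Real.sqrt_nonneg (N : ℝ)
    linarith
  calc (Q N q a : ℝ) ≤ (N : ℝ) ^ (1 / 2 + ε) := h1 N hN1 q a hqa.1 hqa.2.1 hq
    _ = (N : ℝ) ^ ε * Real.sqrt N := by
      rw [Real.sqrt_eq_rpow, ← Real.rpow_add hN0, add_comm]
    _ ≤ (N : ℝ) ^ ε * (Q N 24 1 : ℝ) := mul_le_mul_of_nonneg_left h2 (Real.rpow_nonneg hN0.le _)

end Pool.Agent.Results.MP_2c6f70_nt.DoubleExp
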