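import Pool.Agent.Lib.MP_2c6f70_nt.AsyB
import Pool.Agent.Lib.MP_2c6f70_nt.AsyC
import Pool.Agent.Lib.MP_2c6f70_nt.TwentyFour
import Pool.Agent.Lib.MP_2c6f70_nt.Root
import Pool.Agent.Lib.MP_2c6f70_nt.Eff
import Pool.Agent.Lib.MP_2c6f70_nt.Low2

/-!
Strong form of Rudin's conjecture: what a counterexample has to look like.

Let `T = Q(N;q,a)` be larger than `Q(N;24,1)`, `N` large.  Then `q` has at least `T / (1 + ε)` distinct prime
factors (`> (1 - ε) sqrt (8 N / 3)`), even in the weighted sense `(log q)^2 / ∑ (log p^e)^2 ≥ T / (1 + ε)` (the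
sum over the prime powers `p^e` exactly dividing `q`), `log q ≥ (1 - ε) sqrt (2 N / 3) log N`, every prime power
`p^e` exactly dividing `q` is at most `8 N^2` or at most `q^(5 / T)`, and `a ≤ N^2 q^(T / (T - 1))`.

Proof.  For two of the roots `x`, `y` of the squares every prime power `p^e` exactly dividing `q` divides `x - y`
or `x + y`; the weighted sum of the signs `± log p^e` is `log A - log B` with `A B = q`, `A ∣ x - y`, `B ∣ x + y`
and `(x - y) (x + y) ≤ q N`, so at most `log N`; positivity of the Gram matrix gives a lower bound; so the sign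
vectors are nearly orthogonal in a space of dimension `ω(q)`.
-/

set_option autoImplicit false

namespace Pool.Agent.Results.MP_2c6f70_nt.FewPrimes

open Necdea073 Pool.Agent.Lib.MP_2c6f70_nt

/-- For every `ε > 0` and all large `N`: if a non-trivial progression `q n + a` has among its first `N` terms
`T = Q N q a` squares, more than `24 n + 1`, then
* `ω(q) ≥ (1 - ε) sqrt (8 N / 3)` and `T ≤ (1 + ε) ω(q)`;
* `T * ∑ (log p^e)^2 ≤ (1 + ε) (log q)^2`, the sum over the prime powers exactly dividing `q`;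
* `log q ≥ (1 - ε) sqrt (2 N / 3) log N`;
* every prime power `p^e > 8 N^2` exactly dividing `q` satisfies `(p^e)^T ≤ q^5`;
* `a^(T - 1) ≤ N^(2 (T - 1)) q^T`. -/
theorem result : ∀ ε : ℝ, 0 < ε → ∃ N₀ : ℕ, ∀ N ≥ N₀, ∀ q a : ℕ, IsNontrivial q a →
    Q N 24 1 < Q N q a →
      (1 - ε) * Real.sqrt (8 / 3 * N) ≤ q.primeFactors.card ∧
      (Q N q a : ℝ) ≤ (1 + ε) * q.primeFactors.card ∧
      (Q N q a : ℝ) * ∑ p ∈ q.primeFactors, Real.log ((p : ℝ) ^ q.factorization p) ^ 2 ≤
        (1 + ε) * Real.log q ^ 2 ∧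
      (1 - ε) * (Real.sqrt (2 / 3 * N) * Real.log N) ≤ Real.log q ∧
      (∀ p ∈ q.primeFactors, 8 * N ^ 2 < p ^ q.factorization p →
        (p ^ q.factorization p) ^ Q N q a ≤ q ^ 5) ∧
      a ^ (Q N q a - 1) ≤ N ^ (2 * (Q N q a - 1)) * q ^ Q N q a := by
  intro ε hε
  obtain ⟨δ, hδ0, hδ1, hδε⟩ : ∃ δ : ℝ, 0 < δ ∧ δ ≤ 1 / 8 ∧ δ ≤ ε / 4 :=
    ⟨min (1 / 8) (ε / 4), lt_min (by norm_num) (by linarith), min_le_left _ _, min_le_right _ _⟩
  obtain ⟨N₂, h2⟩ := range2
  obtain ⟨N₃, h3⟩ := range3 δ hδ0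
  obtain ⟨N₄, h4⟩ := range3w ε hε
  obtain ⟨N₅, h5⟩ := Q24_asy δ hδ0
  obtain ⟨N₆, h6⟩ := exists_nat_ge (Real.exp (2 / δ))
  refine ⟨max (max (max N₂ N₃) (max N₄ N₅)) (max N₆ (201 ^ 4 + 1)), ?_⟩
  intro N hN q a hqa hlt
  have hN2 : N₂ ≤ N := by omega
  have hN3 : N₃ ≤ N := by omega
  have hN4 : N₄ ≤ N := by omega
  have hN5 : N₅ ≤ N := by omega
  have hN6 : N₆ ≤ N := by omega
  have hNb : 201 ^ 4 + 1 ≤ N := by omega
  obtain ⟨hq1, ha1, hc, hne⟩ := hqa
  have hq0 : q ≠ 0 := by omega
  have hNR : (201 : ℝ) ^ 4 < N := by exact_mod_cast hNb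
  have hN0 : (0 : ℝ) < N := lt_trans (by norm_num) hNR
  have hlow : 3 / 2 * Real.sqrt N ≤ (Q N 24 1 : ℝ) := Q24_ge N (by omega)
  have hsq : 0 ≤ Real.sqrt N := Real.sqrt_nonneg _
  obtain ⟨S, hS, hcard, hSa⟩ := exists_good N q a hq1 hc
  have hlt' : (Q N 24 1 : ℝ) < S.card := by
    rw [hcard]
    exact_mod_cast hlt
  have h24 : q ≠ 24 := by
    intro h24
    subst h24
    exact absurd (Q24_le N a ha1 hc) (not_le.mpr hlt)
  have hsm' : N < 10000 * q := by
    by_contra hsm
    have := card_le_small hq0 h24 (by omega) hS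
    norm_num at this
    linarith
  have hD1 : N < 16 ^ q.primeFactors.card := by
    by_contra hD1
    have := range1 hq0 hsm' hS (by omega) (by omega)
    linarith
  have hD2 : N < q.primeFactors.card ^ 4 := by
    by_contra hD2
    have := h2 N hN2 q S hq0 hS hD1 (by omega)
    linarith
  have hTD := h3 N hN3 q S hq0 hS hD2
  have hasy := h5 N hN5
  set r := Real.sqrt (8 / 3 * N) with hr
  have hr0 : 0 < r := Real.sqrt_pos.mpr (by positivity)
  have hD : (1 - 2 * δ) * r ≤ (q.primeFactors.card : ℝ) := by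
    have e1 : (1 - δ) * r ≤ (1 + δ) * q.primeFactors.card := by linarith
    have e2 : (1 + δ) * ((1 - 2 * δ) * r) ≤ (1 + δ) * q.primeFactors.card := by
      refine le_trans ?_ e1
      have : (1 + δ) * (1 - 2 * δ) ≤ 1 - δ := by nlinarith
      calc (1 + δ) * ((1 - 2 * δ) * r) = ((1 + δ) * (1 - 2 * δ)) * r := by ring
        _ ≤ (1 - δ) * r := mul_le_mul_of_nonneg_right this hr0.le
    exact le_of_mul_le_mul_left e2 (by linarith)
  have hD0 : (0 : ℝ) ≤ (q.primeFactors.card : ℝ) := Nat.cast_nonneg _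
  have hlogN : 2 / δ ≤ Real.log N := by
    rw [Real.le_log_iff_exp_le hN0]
    refine h6.trans ?_
    exact_mod_cast hN6
  have hlogN16 : 16 ≤ Real.log N := by
    refine le_trans ?_ hlogN
    rw [le_div_iff₀ hδ0]
    linarith
  rw [← hcard]
  have hsN : 200 ≤ Real.sqrt N := by
    apply Real.le_sqrt_of_sq_le
    refine le_trans ?_ hNR.le
    norm_num
  have hT : (200 : ℝ) ≤ S.card := by linarith
  have hT' : 200 ≤ S.card := by exact_mod_cast hT
  refine ⟨?_, ?_, h4 N hN4 q S hq0 hS hD2 (by linarith), ?_, ?_, ?_⟩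
  · refine le_trans (mul_le_mul_of_nonneg_right (by linarith) hr0.le) hD
  · refine hTD.trans (mul_le_mul_of_nonneg_right (by linarith) hD0)
  · -- the size of `q`
    have hDN : Real.sqrt N ≤ (q.primeFactors.card : ℝ) := by
      refine le_trans ?_ hD
      rw [Real.sqrt_le_left (mul_nonneg (by linarith) hr0.le), mul_pow, hr,
        Real.sq_sqrt (by positivity)]
      have : (9 : ℝ) / 16 ≤ (1 - 2 * δ) ^ 2 := by nlinarith
      nlinarith
    have hDpos : (0 : ℝ) < q.primeFactors.card := by linarith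
    have hlogD : 1 / 2 * Real.log N ≤ Real.log q.primeFactors.card := by
      have e1 := Real.log_le_log (Real.sqrt_pos.mpr hN0) hDN
      rw [Real.log_sqrt hN0.le] at e1
      linarith
    have hD1' : 1 ≤ q.primeFactors.card := by
      have : (1 : ℝ) ≤ q.primeFactors.card := by linarith
      exact_mod_cast this
    refine le_trans ?_ (log_ge' hq0 hD1')
    have e2 : 1 / 2 * (1 - δ) * Real.log N ≤ Real.log q.primeFactors.card - 1 := by
      have : 2 ≤ δ * Real.log N := by
        rw [div_le_iff₀ hδ0] at hlogN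
        linarith
      linarith
    have hpos : 0 ≤ 1 / 2 * (1 - δ) * Real.log N := by
      refine mul_nonneg (by linarith) (by linarith)
    have e3 : Real.sqrt (2 / 3 * N) = 1 / 2 * r := by
      have e4 : (1 / 2 * r) ^ 2 = 2 / 3 * N := by
        rw [mul_pow, hr, Real.sq_sqrt (by positivity)]
        ring
      rw [← e4, Real.sqrt_sq (by positivity)]
    rw [e3]
    calc (1 - ε) * (1 / 2 * r * Real.log N) ≤ (1 - 3 * δ) * (1 / 2 * r * Real.log N) := by
          refine mul_le_mul_of_nonneg_right (by linarith) ?_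
          exact mul_nonneg (by linarith) (by linarith)
      _ ≤ ((1 - 2 * δ) * (1 - δ)) * (1 / 2 * r * Real.log N) := by
          refine mul_le_mul_of_nonneg_right (by nlinarith) ?_
          exact mul_nonneg (by linarith) (by linarith)
      _ = ((1 - 2 * δ) * r) * (1 / 2 * (1 - δ) * Real.log N) := by ring
      _ ≤ _ := mul_le_mul hD e2 hpos hD0
  · -- a heavy prime power
    intro p hp hbig
    have hp0 : 0 < p := (Nat.prime_of_mem_primeFactors hp).pos
    have hlw := lw_le hp
    set l := Real.log ((p : ℝ) ^ q.factorization p) with hl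
    have hlog2 : Real.log 2 ≤ 0.7 := by
      have := Real.log_two_lt_d9
      linarith
    have hlog2' : 0 < Real.log 2 := Real.log_pos (by norm_num)
    have e1 : Real.log (8 * (N : ℝ) ^ 2) ≤ l := by
      refine Real.log_le_log (by positivity) ?_
      have : ((8 * N ^ 2 : ℕ) : ℝ) ≤ ((p ^ q.factorization p : ℕ) : ℝ) := by exact_mod_cast hbig.le
      push_cast at this
      exact this
    have e2 : Real.log (8 * (N : ℝ) ^ 2) = 2 * Real.log (2 * N) + Real.log 2 := by
      rw [show (8 : ℝ) * N ^ 2 = (2 * N) ^ 2 * 2 by ring, Real.log_mul (by positivity) (by norm_num),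
        Real.log_pow]
      norm_num
    have e3 : 2 * Real.log (2 * N) ≤ wt q p := by linarith
    have e4 : Real.log (2 * N) = Real.log 2 + Real.log N := Real.log_mul (by norm_num) hN0.ne'
    have e5 := heavy hq0 (by omega) hS hp e3
    have e6 := WW_le_log hq0
    have e7 : 32 ≤ wt q p := by linarith
    have e8 : (S.card : ℝ) * l ≤ 5 * Real.log q := by
      have f1 : (S.card : ℝ) * l ≤ S.card * (1.03 * wt q p) :=
        mul_le_mul_of_nonneg_left (by linarith) (Nat.cast_nonneg _)
      have f2 : (S.card : ℝ) ≤ 1.02 * (S.card - 2) := by linarith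
      have f3 : (S.card : ℝ) * (1.03 * wt q p) ≤ 1.02 * (S.card - 2) * (1.03 * wt q p) :=
        mul_le_mul_of_nonneg_right f2 (by positivity)
      have f4 : (0 : ℝ) ≤ WW q := Abs_WW_nonneg q
      linarith
    have hq0' : (0 : ℝ) < q := by exact_mod_cast Nat.pos_of_ne_zero hq0
    have hp0' : (0 : ℝ) < p := by exact_mod_cast hp0
    have e9 : Real.log (((p : ℝ) ^ q.factorization p) ^ S.card) ≤ Real.log ((q : ℝ) ^ 5) := by
      have f1 : Real.log (((p : ℝ) ^ q.factorization p) ^ S.card) =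
          S.card * Real.log ((p : ℝ) ^ q.factorization p) := Real.log_pow _ _
      have f2 : Real.log ((q : ℝ) ^ 5) = (5 : ℕ) * Real.log q := Real.log_pow _ _
      rw [f1, f2, ← hl]
      exact_mod_cast e8
    have e10 := (Real.log_le_log_iff (by positivity) (by positivity)).mp e9
    exact_mod_cast e10
  · exact size_a hq0 (by omega) ha1 hS hSa (by omega)

end Pool.Agent.Results.MP_2c6f70_nt.FewPrimes
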