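import Pool.Agent.Lib.MP_2c6f70_nt.KW.Pow

/-!
Strong form of Rudin's conjecture for moduli that are not too smooth.

For two squares `x^2`, `y^2` in the progression `q n + a` every prime power exactly dividing `q` divides `x - y` or `x + y` (up to a factor
four at `2`); this defines sign vectors indexed by the prime factors of `q`.  We show that the sign vectors are nearly independent of every
order: for `2 j` of the roots the product of the signs is equally often `1` and `-1`, with the weights `log p^e`.  Let `n_x` be the indices; with a Padé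
approximant `A + B sqrt(∏ (1 + 4 n_x t)) = O(t^(2 K + j + 1))` (Siegel's lemma) the integer `A(4a, q) + B(4a, q) 2^(2j) ∏ x` (`A`, `B`
homogenized) is divisible by the `(2 K + j + 1)`-th powers of all prime powers of `q` with product of signs `1`, but its absolute value is at most
about `q^(K + j)`, and it does not vanish.  The trace inequality for the products of the sign vectors over the `k`-subsets of the set of roots
gives `(T choose k) <= 17 (log q)^2 / ∑ (log p^e)^2`.
-/

set_option autoImplicit false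

namespace Pool.Agent.Results.MP_2c6f70_nt.RoughModuli

open Necdea073 Pool.Agent.Lib.MP_2c6f70_nt.KW

/-- Sums over `p` run over the prime factors of `q`; `p ^ q.factorization p` is the power of `p` exactly dividing `q`.
(1) For all `N`, `k ≥ 1` and non-trivial `(q, a)`: if `∑ (log p^e)^2 ≥ 2000 k^2 log (8 N) log q` then
`(Q N q a choose k) ∑ (log p^e)^2 ≤ 17 (log q)^2`.
(2) The strong form holds for large `N` if `(log q)^2 ≤ r ∑ (log p^e)^2` for some `r ≥ 1` with `log r ≤ N^(1/4)` and
`∑ (log p^e)^2 ≥ C (log N + log r)^2 / log N * log q`.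
(3) The strong form holds for all moduli that are `e`-th powers `b^e`, `e ≥ E(A)`, where `b` has at most `N^A` prime factors, `N ≥ N₀(A)`. -/
theorem result :
    (∀ N q a k : ℕ, 1 ≤ k → IsNontrivial q a →
      2000 * (k : ℝ) ^ 2 * Real.log (8 * N) * Real.log q ≤
        ∑ p ∈ q.primeFactors, Real.log ((p : ℝ) ^ q.factorization p) ^ 2 →
      ((Q N q a).choose k : ℝ) * ∑ p ∈ q.primeFactors, Real.log ((p : ℝ) ^ q.factorization p) ^ 2 ≤
        17 * Real.log q ^ 2) ∧
    (∃ C : ℝ, 0 < C ∧ ∃ N₀ : ℕ, ∀ N ≥ N₀, ∀ r : ℝ, 1 ≤ r →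
      Real.log r ≤ (N : ℝ) ^ (1 / 4 : ℝ) → ∀ q a : ℕ, IsNontrivial q a →
      Real.log q ^ 2 ≤ r * ∑ p ∈ q.primeFactors, Real.log ((p : ℝ) ^ q.factorization p) ^ 2 →
      C * (Real.log N + Real.log r) ^ 2 * Real.log q ≤
        Real.log N * ∑ p ∈ q.primeFactors, Real.log ((p : ℝ) ^ q.factorization p) ^ 2 →
      Q N q a ≤ Q N 24 1) ∧
    (∀ A : ℕ, ∃ E N₀ : ℕ, ∀ N ≥ N₀, ∀ b e a : ℕ, E ≤ e → IsNontrivial (b ^ e) a →
      b.primeFactors.card ≤ N ^ A → Q N (b ^ e) a ≤ Q N 24 1) := by
  refine ⟨?_, strong_ineq, pow_ineq⟩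
  intro N q a k hk hqa h
  obtain ⟨hq1, ha1, hc, -⟩ := hqa
  obtain ⟨S, hS, hcard⟩ := exists_rts N q a hq1
  rw [← hcard]
  exact main_ineq hq1 ha1 hc hS hk h

end Pool.Agent.Results.MP_2c6f70_nt.RoughModuli
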