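import Pool.Agent.Lib.MP_2c6f70_nt.RU.S_Main

/-!
Squares in arithmetic progressions: the exponent `1/2` unless all small integers are squares modulo almost all prime powers of `q`.

`Q(N;q,a)` is the number of squares among the first `N` terms of the progression `q n + a`.  Rudin's conjecture is `Q(N;q,a) = O(sqrt N)`; the best known bound
for all `q` is `N ^ (3/5 + o(1))` (Bombieri and Zannier).  Here the modulus `q` is of any size.

Sketch.  Suppose that `Q(N;q,a)^2 > |w| N^(1+2η)`.  One passes to a coprime progression for which the set `S` of roots is small in all residue classes.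
(1) Signs: every prime power `p^e` exactly dividing `q` divides `x - y` or `x + y` for `x, y ∈ S`, and the sign vectors are nearly uncorrelated.
(2) Write `x - y = a A`, `x + y = b B`, where `A`, `B` are the products of the `p^e` with equal and different signs; `a b = ± (n_x - n_y)` up to a divisor of `8`.  The matrix of the
Jacobi symbols `(b_{xy} | p_1 ... p_10)` for prime divisors `p_i ≤ sqrt N` of `q` has rank one on the sign classes, and its fourth moment shows that `b_{xy}` takes a common
value for `N^(2 - o(1))`-many pairs.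
(3) With a common neighbourhood: on a subset `V`, `#V ≥ N^(-o(1)) #S`, every index difference `d` with more than `N^o(1)` representations has a prescribed symbol `(d | p) = ω_p` for
almost all `p^e` in the weighted sense, and these `p` are `1` modulo `4`.
(4) As `#V^2 > |w| N^(1+η)`, the sums `m + |w| m'` of indices `m, m'` of elements of `V` have many coincidences, so that some `d` and `|w| d` both have more than `N^o(1)` representations; hence `(w | p) = 1` for almost all `p^e`.
-/

set_option autoImplicit false

namespace Pool.Agent.Results.MP_2c6f70_nt.SmallResidues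

open Necdea073 Pool.Agent.Lib.MP_2c6f70_nt

/-- The product of the prime powers `p ^ e` exactly dividing `q` for which `p = 2` or the Legendre symbol `(w | p)` is not `1`, that is, `w` is not a non-zero square modulo `p`. -/
noncomputable def nonResPart (q : ℕ) (w : ℤ) : ℕ :=
  ∏ p ∈ q.primeFactors.filter (fun p => p = 2 ∨ jacobiSym w p ≠ 1), p ^ q.factorization p

/-- For all `η, δ > 0` there is `N₀` such that for all `N ≥ N₀`, all coprime `q, a ≥ 1` and all integers `w ≠ 0`: if `nonResPart q w > q ^ δ`, then `Q(N;q,a) ≤ |w| ^ (1/2) * N ^ (1/2 + η)`. -/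
theorem result (η δ : ℝ) (hη : 0 < η) (hδ : 0 < δ) : ∃ N₀ : ℕ, ∀ N ≥ N₀, ∀ q a : ℕ, 1 ≤ q → 1 ≤ a →
    Nat.Coprime q a → ∀ w : ℤ, w ≠ 0 → (q : ℝ) ^ δ < (nonResPart q w : ℝ) →
      (Q N q a : ℝ) ≤ Real.sqrt |(w : ℝ)| * (N : ℝ) ^ (1 / 2 + η) := by
  obtain ⟨N₀, h⟩ := RU.rudin_res (2 * η) δ (by linarith) hδ
  refine ⟨max N₀ 1, ?_⟩
  intro N hN q a hq ha hc w hw hR
  by_contra hcon
  push Not at hcon
  have hN1 : (1 : ℝ) ≤ N := by exact_mod_cast le_trans (le_max_right _ _) hN
  have hN0 : (0 : ℝ) < N := by linarith
  have h1 := h N (le_trans (le_max_left _ _) hN) q a hq ha hc w hw ?_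
  · unfold nonResPart at hR
    linarith
  · have h2 : (Real.sqrt |(w : ℝ)| * (N : ℝ) ^ (1 / 2 + η)) ^ 2 ≤ (Q N q a : ℝ) ^ 2 :=
      pow_le_pow_left₀ (by positivity) hcon.le 2
    have h3 : (Real.sqrt |(w : ℝ)| * (N : ℝ) ^ (1 / 2 + η)) ^ 2 = |(w : ℝ)| * (N : ℝ) ^ (1 + 2 * η) := by
      rw [mul_pow, Real.sq_sqrt (abs_nonneg _), sq, ← Real.rpow_add hN0]
      congr 2
      ring
    rw [h3] at h2
    exact h2

end Pool.Agent.Results.MP_2c6f70_nt.SmallResidues
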